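import Mathlib
import Pool.Agent.MP_178ab7_mp.Defs
import Pool.Agent.MP_178ab7_mp.Weyl

open Set
open Pool.Agent.MP_178ab7_mp

namespace Pool.Agent.Results.MP_178ab7_mp.WeakCoupling

/-- **Absence of bound states for weakly attractive `δ'`-interactions on open arcs.**
For every bounded non-closed plane curve `Λ = γ([0,1])` of class `C²` (`γ` injective and regular)
there is `w₀ > 0` such that the spectrum of the Hamiltonian `H_w^Λ`, the operator associated with
the form `∫ |∇u|² - w ∫_Λ |[u]|² ds` on `H¹(ℝ² \ Λ)`, is the half line `[0, ∞)` for every real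
`w ≤ w₀`.

Supporting facts proved in the imported files:
* `ae_trace`: for `u ∈ H¹(ℝ² \ Λ)` both one-sided traces exist at almost every point of the curve;
* `ae_trace_continuous`: the traces of a continuous function are its values;
* `Tube.exists_jump_bound`: the jump is square integrable, `∫_Λ |[u]|² ds ≤ C ∫ |∇u|²`;
* `exists_resolvent`: every `z` outside of `[0, ∞)` is in the resolvent set if `w ≤ w₀`;
* `halfLine_subset`: `[0, ∞)` is contained in the spectrum for every real `w`. -/
theorem result (A : Arc) : ∃ w₀ : ℝ, 0 < w₀ ∧ ∀ w : ℝ, w ≤ w₀ →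
    spectrumOf (hamiltonianGraph A w) = {z : ℂ | 0 ≤ z.re ∧ z.im = 0} := by
  obtain ⟨w₀, hw₀, h⟩ := exists_resolvent A
  refine ⟨w₀, hw₀, fun w hw => ?_⟩
  ext z
  constructor
  · intro hz
    by_contra hcon
    exact h w hw z hcon hz
  · intro hz
    exact halfLine_subset A w hz

end Pool.Agent.Results.MP_178ab7_mp.WeakCoupling
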